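import Pool.Agent.H37.CNW.Stmts
import Pool.Agent.H99.CND.SUB

/-!
# Row XPQ of the board `cnw`: the last ramification group is not in the kernel
-/

set_option autoImplicit false

namespace Pool.CND

open Finset

namespace XPQ

theorem sm_eq {G : Type} [Fintype G] (b : G → ℤ) (T : Set G) (s : Finset G)
    (hs : ∀ x, x ∈ s ↔ x ∈ T) : sm b T = ∑ x ∈ s, b x := by
  classical
  unfold sm
  refine sum_congr ?_ (fun _ _ => rfl)
  ext x
  rw [hs, mem_filter]
  exact ⟨fun h => h.2, fun h => ⟨mem_univ _, h⟩⟩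

section

variable {k L G : Type} [Field k] [Field L] [Algebra k L] [Group G]

theorem ram_anti (P : Place k L) (ρ : G →* (L ≃ₐ[k] L)) {i j : ℕ} (hij : i ≤ j) :
    ram P ρ j ⊆ ram P ρ i := by
  rintro g ⟨hg, hg'⟩
  refine ⟨hg, fun u hu hu1 => ?_⟩
  rcases hg' u hu hu1 with h | h
  · exact Or.inl h
  · right
    have : (i : ℤ) ≤ j := by exact_mod_cast hij
    omega

theorem one_mem_ram (P : Place k L) (ρ : G →* (L ≃ₐ[k] L)) (i : ℕ) : (1 : G) ∈ ram P ρ i := by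
  refine ⟨fun x _ => by rw [map_one]; rfl, fun u _ _ => Or.inl (by rw [map_one]; rfl)⟩

theorem cond_unique (P : Place k L) (ρ : G →* (L ≃ₐ[k] L)) {c c' : ℚ} (h : IsConductor P ρ c)
    (h' : IsConductor P ρ c') : c = c' := by
  have key : ∀ l l' : ℕ, ram P ρ l' ≠ {1} → ram P ρ (l + 1) = {1} → l' ≤ l := by
    intro l l' h1 h2
    by_contra h3
    apply h1
    apply Set.Subset.antisymm
    · have := ram_anti P ρ (show l + 1 ≤ l' by omega)
      rwa [h2] at this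
    · exact Set.singleton_subset_iff.2 (one_mem_ram P ρ l')
  obtain ⟨l, h1, h2, h3⟩ := h
  obtain ⟨l', h1', h2', h3'⟩ := h'
  have : l = l' := le_antisymm (key l' l h1 h2') (key l l' h1' h2)
  rw [h3, h3', this]

theorem ram0_of_fixes (P : Place k L) (ρ : G →* (L ≃ₐ[k] L)) {a : G} (hfix : Fixes P (ρ a)) :
    a ∈ ram P ρ 0 := by
  refine ⟨hfix, fun u hu hu1 => ?_⟩
  by_cases h0 : ρ a u = u
  · exact Or.inl h0
  · right
    have h2 : P.Ge (ρ a u - u) 1 := by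
      refine P.ge_sub ?_ (Or.inr hu1.ge)
      exact Or.inr (by rw [hfix u hu, hu1])
    have h3 := (P.ge_iff (sub_ne_zero.2 h0) 1).1 h2
    simpa using h3

theorem ram1_of_pow (hTMO : S_TMO) {p : ℕ} (hp : p.Prime) (hch : CharP k p) (P : Place k L)
    (ρ : G →* (L ≃ₐ[k] L)) (I : Subgroup G) (hI : (I : Set G) = ram P ρ 0) (r : ℕ) (a : G)
    (ha : a ∈ I) (hr : a ^ (p ^ r) = 1) : a ∈ ram P ρ 1 := by
  induction r generalizing a with
  | zero =>
    rw [pow_zero, pow_one] at hr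
    rw [hr]
    exact one_mem_ram P ρ 1
  | succ r ih =>
    have h1 : a ^ p ∈ ram P ρ 1 := ih (a ^ p) (I.pow_mem ha p) (by
      rw [← pow_mul, ← pow_succ']
      exact hr)
    have h2 : a ∈ (I : Set G) := ha
    rw [hI] at h2
    exact hTMO p k L G P ρ hp hch a h2 h1

end

/-- comparison of a coset with the subgroup -/
theorem coset_le {G : Type} [Group G] [Fintype G] (b : G → ℤ) (W A : Subgroup G) (hAW : A ≤ W)
    (hUM : UM b W) (l : ℤ) (hl : ∀ g ∈ W, g ≠ 1 → b g ≤ l) (g : G) (hg : g ∈ W) (hgA : g ∉ A) :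
    sm b {x | g⁻¹ * x ∈ A} ≤ l + sm b {g | g ∈ A ∧ g ≠ 1} ∧
      (b g = l → sm b {x | g⁻¹ * x ∈ A} = l + sm b {g | g ∈ A ∧ g ≠ 1}) := by
  classical
  -- sums over the coset of a member `g₀`
  have hsum : ∀ g₀ : G, sm b {x | g₀⁻¹ * x ∈ A} =
      b g₀ + ∑ a ∈ univ.filter (fun g => g ∈ A ∧ g ≠ 1), b (g₀ * a) := by
    intro g₀
    have h5 : sm b {x | g₀⁻¹ * x ∈ A} = ∑ a ∈ univ.filter (fun a => a ∈ A), b (g₀ * a) := by
      have h7 : ∑ a ∈ univ.filter (fun a => a ∈ A), b (g₀ * a) =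
          ∑ x ∈ (univ.filter (fun a => a ∈ A)).image (fun a => g₀ * a), b x := by
        rw [sum_image]
        intro a _ a' _ h
        exact mul_left_cancel h
      rw [h7]
      refine sm_eq b _ _ (fun x => ?_)
      change _ ↔ g₀⁻¹ * x ∈ A
      rw [mem_image]
      constructor
      · rintro ⟨a, ha, rfl⟩
        rw [inv_mul_cancel_left]
        exact (mem_filter.1 ha).2
      · intro hx
        exact ⟨g₀⁻¹ * x, mem_filter.2 ⟨mem_univ _, hx⟩, by group⟩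
    have h6 : univ.filter (fun a => a ∈ A) =
        insert (1 : G) (univ.filter (fun g => g ∈ A ∧ g ≠ 1)) := by
      ext x
      simp only [mem_filter, mem_univ, true_and, mem_insert]
      constructor
      · intro hx
        by_cases hx1 : x = 1
        · exact Or.inl hx1
        · exact Or.inr ⟨hx, hx1⟩
      · rintro (rfl | ⟨hx, -⟩)
        · exact A.one_mem
        · exact hx
    rw [h5, h6, sum_insert (by simp), mul_one]
  have h8 : sm b {g | g ∈ A ∧ g ≠ 1} =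
      ∑ x ∈ univ.filter (fun g => g ∈ A ∧ g ≠ 1), b x := sm_eq b _ _ (fun x => by
    change _ ↔ x ∈ A ∧ x ≠ 1
    simp only [mem_filter, mem_univ, true_and])
  have hne : ∀ g₀ : G, g₀ ∉ A → ∀ a ∈ A, g₀ * a ≠ 1 := by
    intro g₀ h0 a ha h
    apply h0
    have : g₀ = a⁻¹ := eq_inv_of_mul_eq_one_left h
    rw [this]
    exact A.inv_mem ha
  -- if `b a < b g₀` then `b (g₀ a) = b a`
  have hlow : ∀ g₀ ∈ W, g₀ ∉ A → ∀ a ∈ A, a ≠ 1 → b a < b g₀ → b (g₀ * a) = b a := by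
    intro g₀ hg₀ hg₀A a ha ha1 hlt
    have haW := hAW ha
    have hg₀1 : g₀ ≠ 1 := fun h => hg₀A (by rw [h]; exact A.one_mem)
    have hga := hne g₀ hg₀A a ha
    have h2 := hUM.mul g₀ hg₀ a haW hg₀1 ha1 hga
    have h3 := hUM.mul g₀⁻¹ (W.inv_mem hg₀) (g₀ * a) (W.mul_mem hg₀ haW) (inv_ne_one.2 hg₀1)
      hga (by rw [inv_mul_cancel_left]; exact ha1)
    rw [inv_mul_cancel_left, hUM.inv g₀ hg₀ hg₀1] at h3
    rw [min_eq_right hlt.le] at h2
    rcases min_le_iff.1 h3 with h4 | h4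
    · omega
    · exact le_antisymm h4 h2
  constructor
  · -- a member of the coset with the largest value
    obtain ⟨g₀, hg₀, hmax⟩ := exists_max_image (univ.filter (fun x => g⁻¹ * x ∈ A)) b
      ⟨g, mem_filter.2 ⟨mem_univ _, by rw [inv_mul_cancel]; exact A.one_mem⟩⟩
    have hg₀c : g⁻¹ * g₀ ∈ A := (mem_filter.1 hg₀).2
    have hg₀e : g₀ = g * (g⁻¹ * g₀) := by group
    have hg₀W : g₀ ∈ W := by
      rw [hg₀e]
      exact W.mul_mem hg (hAW hg₀c)
    have hg₀A : g₀ ∉ A := by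
      intro h
      apply hgA
      have : g = g₀ * (g⁻¹ * g₀)⁻¹ := by group
      rw [this]
      exact A.mul_mem h (A.inv_mem hg₀c)
    have hset : {x | g⁻¹ * x ∈ A} = {x | g₀⁻¹ * x ∈ A} := by
      ext x
      change g⁻¹ * x ∈ A ↔ g₀⁻¹ * x ∈ A
      constructor
      · intro h
        have : g₀⁻¹ * x = (g⁻¹ * g₀)⁻¹ * (g⁻¹ * x) := by group
        rw [this]
        exact A.mul_mem (A.inv_mem hg₀c) h
      · intro h
        have : g⁻¹ * x = (g⁻¹ * g₀) * (g₀⁻¹ * x) := by group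
        rw [this]
        exact A.mul_mem hg₀c h
    rw [hset, hsum g₀, h8]
    refine add_le_add (hl g₀ hg₀W (fun h => hg₀A (by rw [h]; exact A.one_mem))) ?_
    refine sum_le_sum (fun a ha => ?_)
    obtain ⟨-, haA, ha1⟩ := mem_filter.1 ha
    by_cases hlt : b a < b g₀
    · exact (hlow g₀ hg₀W hg₀A a haA ha1 hlt).le
    · have h1 := hmax (g₀ * a) (mem_filter.2 ⟨mem_univ _, by
        have : g⁻¹ * (g₀ * a) = (g⁻¹ * g₀) * a := by group
        rw [this]
        exact A.mul_mem hg₀c haA⟩)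
      omega
  · intro hgl
    rw [hsum g, h8, hgl]
    congr 1
    refine sum_congr rfl (fun a ha => ?_)
    obtain ⟨-, haA, ha1⟩ := mem_filter.1 ha
    have haW := hAW haA
    by_cases hlt : b a < b g
    · exact hlow g hg hgA a haA ha1 hlt
    · have h1 := hl a haW ha1
      have h2 : b a = l := by omega
      have hg1 : g ≠ 1 := fun h => hgA (by rw [h]; exact A.one_mem)
      have h3 := hUM.mul g hg a haW hg1 ha1 (hne g hgA a haA)
      have h4 := hl (g * a) (W.mul_mem hg haW) (hne g hgA a haA)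
      rw [hgl, h2, min_self] at h3
      rw [h2]
      exact le_antisymm h4 h3

end XPQ

open XPQ in
theorem xpq_thm (hWP2 : S_WP2) (hWP3 : S_WP3) (hCNV : S_CNV) (hUMW : S_UMW) (hTMO : S_TMO) :
    S_XPQ := by
  classical
  intro p k L L' G H _ _ _ _ _ _ _ _ _ ρ ρ' j π P P' e' A W' z l c hp hch hWX hA hAc hW' hz hπz hzl
    hl hc
  obtain ⟨W₁, I', hW₁, hI', hWI, -⟩ := sub_thm k L' G P' ρ'
  have hWW : W₁ = W' := SetLike.coe_injective (by rw [hW₁, hW'])
  rw [hWW] at hWI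
  obtain ⟨W, I, hW, hI, -, -⟩ := sub_thm k L H P ρ
  obtain ⟨hP0, hP1, hcardI⟩ := hWP3 p k L L' G H ρ ρ' j π P P' e' A I' I hp hch hWX hA hI' hI
  have hfixI : ∀ g ∈ I', Fixes P' (ρ' g) := by
    intro g hg
    have h1 : g ∈ (I' : Set G) := hg
    rw [hI'] at h1
    exact h1.1
  have hfixW : ∀ g ∈ W', Fixes P' (ρ' g) := fun g hg => hfixI g (hWI hg)
  have hAI : A ≤ I' := by
    intro a ha
    have h1 := ram0_of_fixes P' ρ' ((hA a).1 ha).2
    rw [← hI'] at h1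
    exact h1
  have hAW : A ≤ W' := by
    intro a ha
    obtain ⟨r, hr⟩ := hAc
    have h1 : a ^ (p ^ r) = 1 := by
      have h2 : (⟨a, ha⟩ : A) ^ Nat.card A = 1 := pow_card_eq_one'
      rw [hr] at h2
      have h3 := congrArg Subtype.val h2
      simpa using h3
    have h4 := ram1_of_pow hTMO hp hch P' ρ' I' hI' r a (hAI ha) h1
    rw [← hW'] at h4
    exact h4
  have hUM := hUMW k L' G P' ρ' W' hWX.inj' hW'
  set b : G → ℤ := fun g => P'.b (ρ' g) with hb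
  have hmemW : ∀ h : H, h ∈ W ↔ ∃ g ∈ W', π g = h := by
    intro h
    have h1 : h ∈ W ↔ h ∈ ram P ρ 1 := by
      rw [← hW]
      rfl
    rw [h1, hP1]
    constructor
    · rintro ⟨g, hg, e⟩
      rw [← hW'] at hg
      exact ⟨g, hg, e⟩
    · rintro ⟨g, hg, e⟩
      have hg' : g ∈ (W' : Set G) := hg
      rw [hW'] at hg'
      exact ⟨g, hg', e⟩
  have hpi : ∀ g ∈ W', g ∉ A → π g ≠ 1 := fun g hg hgA h1 => hgA ((hA g).2 ⟨h1, hfixW g hg⟩)
  have hnA : ∀ g : G, π g ≠ 1 → g ∉ A := fun g hg hgA => hg ((hA g).1 hgA).1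
  have hcoset : ∀ g ∈ W', g ∉ A → sm b {x | g⁻¹ * x ∈ A} = Nat.card A * P.b (ρ (π g)) :=
    fun g hg hgA => (hWP2 k L L' G H ρ ρ' j π P P' e' A g hWX hA (hfixW g hg)
      (hpi g hg hgA)).2
  have hApos : (0 : ℤ) < Nat.card A := by exact_mod_cast Nat.card_pos
  set l₀ : ℤ := P.b (ρ (π z)) with hl₀
  have hzA := hnA z hπz
  have hzc : (Nat.card A : ℤ) * l₀ = l + sm b {g | g ∈ A ∧ g ≠ 1} := by
    rw [hl₀, ← hcoset z hz hzA]
    exact (coset_le b W' A hAW hUM l (fun g hg hg1 => hl.le g hg hg1) z hz hzA).2 hzl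
  -- the last value downstairs
  have hlast : IsLst (fun h => P.b (ρ h)) W l₀ := by
    refine ⟨⟨π z, (hmemW _).2 ⟨z, hz, rfl⟩, hπz, rfl⟩, ?_⟩
    intro h hh h1
    obtain ⟨g, hg, rfl⟩ := (hmemW h).1 hh
    have hgA := hnA g h1
    have h2 := (coset_le b W' A hAW hUM l (fun g hg hg1 => hl.le g hg hg1) g hg hgA).1
    rw [hcoset g hg hgA, ← hzc] at h2
    exact le_of_mul_le_mul_left h2 hApos
  -- the sums
  set s : Finset G := univ.filter (fun g => g ∈ W' ∧ g ∉ A) with hs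
  have hsum1 : ∑ x ∈ s, b x = Nat.card A * sm (fun h => P.b (ρ h)) {h | h ∈ W ∧ h ≠ 1} := by
    have e0 : sm (fun h => P.b (ρ h)) {h | h ∈ W ∧ h ≠ 1} = ∑ h ∈ s.image π, P.b (ρ h) := by
      refine sm_eq _ _ _ (fun h => ?_)
      change _ ↔ h ∈ W ∧ h ≠ 1
      rw [mem_image, hmemW]
      constructor
      · rintro ⟨g, hg, rfl⟩
        obtain ⟨-, hgW, hgA⟩ := mem_filter.1 hg
        exact ⟨⟨g, hgW, rfl⟩, hpi g hgW hgA⟩
      · rintro ⟨⟨g, hgW, rfl⟩, h1⟩
        exact ⟨g, mem_filter.2 ⟨mem_univ _, hgW, hnA g h1⟩, rfl⟩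
    rw [e0, ← Finset.sum_fiberwise_of_maps_to (g := π) (t := s.image π)
      (fun x hx => mem_image_of_mem π hx) b, Finset.mul_sum]
    refine sum_congr rfl (fun h hh => ?_)
    obtain ⟨g, hg, rfl⟩ := mem_image.1 hh
    obtain ⟨-, hgW, hgA⟩ := mem_filter.1 hg
    rw [← hcoset g hgW hgA]
    refine (sm_eq b _ _ (fun x => ?_)).symm
    change _ ↔ g⁻¹ * x ∈ A
    simp only [hs, mem_filter, mem_univ, true_and]
    constructor
    · rintro ⟨⟨hxW, hxA⟩, hx⟩
      refine (hA _).2 ⟨by rw [map_mul, map_inv, hx, inv_mul_cancel], ?_⟩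
      exact hfixW _ (W'.mul_mem (W'.inv_mem hgW) hxW)
    · intro hx
      have hxe : x = g * (g⁻¹ * x) := by group
      have hpx : π (g⁻¹ * x) = 1 := ((hA _).1 hx).1
      refine ⟨⟨?_, ?_⟩, ?_⟩
      · rw [hxe]
        exact W'.mul_mem hgW (hAW hx)
      · intro hxA
        apply hgA
        have : g = x * (g⁻¹ * x)⁻¹ := by group
        rw [this]
        exact A.mul_mem hxA (A.inv_mem hx)
      · rw [hxe, map_mul, hpx, mul_one]
  have hsplit : sm b {g | g ∈ W' ∧ g ≠ 1} = sm b {g | g ∈ A ∧ g ≠ 1} + ∑ x ∈ s, b x := by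
    set s₁ : Finset G := univ.filter (fun g => g ∈ A ∧ g ≠ 1) with hs₁
    have hdis : Disjoint s₁ s := by
      rw [Finset.disjoint_left]
      intro x hx hxs
      exact (mem_filter.1 hxs).2.2 (mem_filter.1 hx).2.1
    have e1 : sm b {g | g ∈ A ∧ g ≠ 1} = ∑ x ∈ s₁, b x := sm_eq b _ _ (fun x => by
      change _ ↔ x ∈ A ∧ x ≠ 1
      simp only [hs₁, mem_filter, mem_univ, true_and])
    rw [e1, ← sum_union hdis]
    refine sm_eq b _ _ (fun x => ?_)
    change _ ↔ x ∈ W' ∧ x ≠ 1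
    simp only [hs, hs₁, mem_filter, mem_univ, true_and, mem_union]
    rw [Iff.comm]
    constructor
    · rintro ⟨hxW, hx1⟩
      by_cases hxA : x ∈ A
      · exact Or.inl ⟨hxA, hx1⟩
      · exact Or.inr ⟨hxW, hxA⟩
    · rintro (⟨hxA, hx1⟩ | ⟨hxW, hxA⟩)
      · exact ⟨hAW hxA, hx1⟩
      · refine ⟨hxW, ?_⟩
        rintro rfl
        exact hxA A.one_mem
  have htot : l + sm b {g | g ∈ W' ∧ g ≠ 1} =
      Nat.card A * (l₀ + sm (fun h => P.b (ρ h)) {h | h ∈ W ∧ h ≠ 1}) := by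
    rw [hsplit, hsum1, mul_add, hzc]
    ring
  -- the conductors
  have hc' := hCNV k L' G P' ρ' W' I' l hWX.inj' hW' hI' hl
  have hcc := cond_unique P' ρ' hc hc'
  have hc₀ := hCNV k L H P ρ W I l₀ hWX.inj hW hI hlast
  have hval : c = Nat.card W * U (fun h => P.b (ρ h)) W l₀ / Nat.card I := by
    rw [hcc]
    unfold U
    have hWpos : (Nat.card W : ℚ) ≠ 0 := by exact_mod_cast Nat.card_pos.ne'
    have hW'pos : (Nat.card W' : ℚ) ≠ 0 := by exact_mod_cast Nat.card_pos.ne'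
    have hIpos : (Nat.card I : ℚ) ≠ 0 := by exact_mod_cast Nat.card_pos.ne'
    have hA0 : (Nat.card A : ℚ) ≠ 0 := by exact_mod_cast Nat.card_pos.ne'
    have htot' : (l : ℚ) + sm b {g | g ∈ W' ∧ g ≠ 1} =
        Nat.card A * ((l₀ : ℚ) + sm (fun h => P.b (ρ h)) {h | h ∈ W ∧ h ≠ 1}) := by
      exact_mod_cast htot
    have hI'c : (Nat.card I' : ℚ) = Nat.card A * Nat.card I := by exact_mod_cast hcardI
    rw [mul_div_cancel₀ _ hW'pos, mul_div_cancel₀ _ hWpos, hI'c]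
    rw [show ((l : ℚ) + ((sm (fun g => P'.b (ρ' g)) {g | g ∈ W' ∧ g ≠ 1} : ℤ) : ℚ)) =
      Nat.card A * ((l₀ : ℚ) + sm (fun h => P.b (ρ h)) {h | h ∈ W ∧ h ≠ 1}) from htot']
    rw [mul_div_mul_left _ _ hA0]
  rw [hval]
  exact hc₀

end Pool.CND
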